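import Pool.Agent.W211.AF.Stm2

/-! Project AF, part AF-ID1: the convolution identity. -/

set_option autoImplicit false

open scoped ENNReal

namespace Pool.Agent.W73.AFId1

open FreeGroup
open Pool.Agent.W211.AF
open Pool.Agent.Results.MP_11aa79_an.NotFactor
open Pool.Agent.Results.MP_11aa79_an.NotFactor.Kap
open Pool.Agent.Results.MP_11aa79_an.NotFactor.Main
open Pool.Agent.Results.MP_11aa79_an.NotFactor.Fac

theorem fin_summable (f : G → ℂ) (hf : (Function.support f).Finite) :
    Summable fun g => ‖f g‖ := by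
  refine summable_of_hasFiniteSupport (hf.subset ?_)
  intro g hg h0
  apply hg
  show ‖f g‖ = 0
  rw [h0, norm_zero]

theorem conv_rconv' {b c : G → ℂ} (hb : Summable fun g => ‖b g‖)
    (hc : Summable fun g => ‖c g‖) (k : H G) :
    conv b (rconv c k) = rconv c (conv b k) := by
  have h1 : HasSum (fun g => c g • (tr (Equiv.mulRight g⁻¹) k)) (rconv c k) :=
    (summable_rconv hc k).hasSum
  have h2 := h1.mapL (conv b)
  rw [← h2.tsum_eq]
  unfold rconv
  congr 1
  ext g
  rw [map_smul, conv_rtr hb]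

theorem summable_term {b : G → ℂ} (hb : Summable fun g => ‖b g‖) (k : H G) (x : G) :
    Summable fun g => b g * k (x * g⁻¹) := by
  refine Summable.of_norm_bounded (g := fun g => ‖b g‖ * ‖k‖) (hb.mul_right _) (fun g => ?_)
  rw [norm_mul]
  exact mul_le_mul_of_nonneg_left (lp.norm_apply_le_norm (by norm_num) k _) (norm_nonneg _)

theorem summable_zz (A B : ℂ) : Summable fun g => ‖zz (0 : Fin 2) 1 A B g‖ := by
  have hd : ∀ c : FreeGroup (Fin 2),
      Summable (fun g : FreeGroup (Fin 2) => if g = c then (1 : ℂ) else 0) :=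
    fun c => (hasSum_ite_eq c 1).summable
  have hsum : Summable (zz (0 : Fin 2) 1 A B) := by
    unfold zz
    exact ((hd _).sub ((hd _).mul_left A)).sub ((hd _).mul_left B)
  exact hsum.norm

theorem main : S_ID1 := by
  intro A B p q hp hq k hk x
  have hps := fin_summable p hp
  have hqs := fin_summable q hq
  have hvs : Summable fun g => ‖cv p q g‖ := summable_cv hps hqs
  have hzs := summable_zz A B
  obtain ⟨qh, hqh⟩ : ∃ qh : H G, ∀ g, qh g = q g :=
    ⟨⟨q, summable_sq_of_summable hqs⟩, fun _ => rfl⟩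
  have h1 : conv p (rconv (cv p q) k - qh) = 0 := by
    rw [map_sub, conv_rconv' hps hvs, hk]
    ext t
    have h2 : conv p qh t = cv p q t := by
      rw [conv_apply hps]
      unfold cv
      exact tsum_congr fun g => by rw [hqh]
    have h3 : rconv (cv p q) (lp.single 2 1 1 : H G) t = cv p q t := by
      rw [rconv_apply hvs, tsum_eq_single t]
      · rw [mul_inv_cancel, del_apply, if_pos rfl, mul_one]
      · intro g hg
        have h4 : t * g⁻¹ ≠ 1 := fun h => hg (by rw [mul_inv_eq_one] at h; exact h.symm)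
        rw [del_apply, if_neg h4, mul_zero]
    simp only [lp.coeFn_sub, Pi.sub_apply, lp.coeFn_zero, Pi.zero_apply]
    rw [h2, h3, sub_self]
  have h3 : rconv (cv p q) k = qh := sub_eq_zero.1 (kaplansky hps k hk _ h1)
  have h4 : ∑' g, cv p q g * k (x * g⁻¹) = q x := by
    rw [← rconv_apply hvs, h3, hqh]
  have h5 : ∑' g, zz (0 : Fin 2) 1 A B g * k (x * g⁻¹) =
      k x - A * k (x * (of 0)⁻¹) - B * k (x * (of 1)⁻¹) := by
    have h6 := tsum_zz (show (0 : Fin 2) ≠ 1 by decide) A B (fun y => k (x * y)) 1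
    simp only [mul_one] at h6
    exact h6
  have hrr : ∀ g, RR A B p q g * k (x * g⁻¹) =
      zz (0 : Fin 2) 1 A B g * k (x * g⁻¹) - cv p q g * k (x * g⁻¹) := by
    intro g
    have : RR A B p q g = zz (0 : Fin 2) 1 A B g - cv p q g := rfl
    rw [this, sub_mul]
  have h6 : ∑' g, RR A B p q g * k (x * g⁻¹) =
      (k x - A * k (x * (of 0)⁻¹) - B * k (x * (of 1)⁻¹)) - q x := by
    simp_rw [hrr]
    rw [(summable_term hzs k x).tsum_sub (summable_term hvs k x), h4, h5]
  rw [h6]
  ring

end Pool.Agent.W73.AFId1
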