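import Pool.Agent.W988.RA.Defs
import Pool.Agent.BSheet.L_santalo

/-! Project RA, part RA-VK: volume of `KK`. -/

open MeasureTheory
open scoped ENNReal BigOperators Pointwise

set_option autoImplicit false

namespace Pool.Agent.W73.RA_VK

open Pool.Agent.W988.RA

/-- the dual body -/
def LL (n m : ℕ) (r : ℝ) : Set (AR n m) :=
  (Set.univ.pi fun _ => Set.Icc (-r) r) ∩ ⋂ A ∈ KK n m, {H : AR n m | ∑ p, H p * A p ≤ 1}

theorem mem_LL {n m : ℕ} {r : ℝ} {H : AR n m} : H ∈ LL n m r ↔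
    (∀ p, |H p| ≤ r) ∧ ∀ A ∈ KK n m, ∑ p, H p * A p ≤ 1 := by
  unfold LL
  simp only [Set.mem_inter_iff, Set.mem_univ_pi, Set.mem_Icc, Set.mem_iInter, Set.mem_ofPred_eq,
    abs_le]

theorem compact_LL (n m : ℕ) (r : ℝ) : IsCompact (LL n m r) := by
  refine IsCompact.inter_right (isCompact_univ_pi fun _ => isCompact_Icc) ?_
  refine isClosed_iInter fun A => isClosed_iInter fun _ => ?_
  refine isClosed_le ?_ continuous_const
  exact continuous_finsetSum _ fun p _ => (continuous_apply p).mul continuous_const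

theorem result (hT : S_TAIL) (hG : S_GOOD) (hK : S_KC) (hR : S_RVP) : S_VK := by
  intro n m L hn hm hL hLn hLm
  obtain ⟨-, -, -, -, -, hnorm, -⟩ := hR
  have hn' : (0 : ℝ) < (n : ℝ) := Nat.cast_pos.2 hn
  have hm' : (0 : ℝ) < (m : ℝ) := Nat.cast_pos.2 hm
  have hs : 0 < Real.sqrt n := Real.sqrt_pos.2 hn'
  have hcard : Fintype.card (Fin n × Fin m) = n * m := by simp
  have hsym : ∀ A ∈ KK n m, -A ∈ KK n m := by
    intro A hA
    have h1 := hnorm n m A (-1)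
    rw [abs_neg, abs_one, one_mul] at h1
    have h2 : (-1 : ℝ) • A = -A := by simp
    rw [h2] at h1
    show nrm (-A) ≤ 1
    rw [h1]
    exact hA
  set r : ℝ := (3 * (m : ℝ))⁻¹ * (L / Real.sqrt n) with hr
  have hsymL : ∀ H ∈ LL n m r, -H ∈ LL n m r := by
    intro H hH
    rw [mem_LL] at hH ⊢
    refine ⟨fun p => ?_, fun A hA => ?_⟩
    · rw [Pi.neg_apply, abs_neg]
      exact hH.1 p
    · have h1 := hH.2 (-A) (hsym A hA)
      refine le_trans (le_of_eq ?_) h1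
      refine Finset.sum_congr rfl fun p _ => ?_
      rw [Pi.neg_apply, Pi.neg_apply]
      ring
  have hsan := BSheet.santalo (ι := Fin n × Fin m) (by rw [hcard]; exact Nat.mul_pos hn hm)
    (KK n m) (LL n m r) (hK n m hn hm) (compact_LL n m r) hsym hsymL (by
      intro x hx y hy
      rw [mem_LL] at hy
      refine le_trans (le_of_eq ?_) (hy.2 x hx)
      exact Finset.sum_congr rfl fun p _ => mul_comm _ _)
  rw [hcard] at hsan
  set Gd : Set (AR n m) := {H : AR n m | (∀ p, |H p| ≤ L / Real.sqrt n) ∧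
      27 * Real.exp (2 * L ^ 2) * frac H ≤ 1} with hGd
  have hsub : (3 * (m : ℝ))⁻¹ • Gd ⊆ LL n m r := by
    rintro _ ⟨H, hH, rfl⟩
    rw [mem_LL]
    refine ⟨fun p => ?_, fun A hA => ?_⟩
    · show |(3 * (m : ℝ))⁻¹ * H p| ≤ r
      rw [abs_mul, abs_of_pos (by positivity : (0 : ℝ) < (3 * (m : ℝ))⁻¹), hr]
      exact mul_le_mul_of_nonneg_left (hH.1 p) (by positivity)
    · have h1 := hT n m L H hn hm hL.le hLn hH.1 hH.2 A hA
      have h2 : ∑ p, ((3 * (m : ℝ))⁻¹ • H) p * A p = (3 * (m : ℝ))⁻¹ * ∑ p, H p * A p := by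
        rw [Finset.mul_sum]
        refine Finset.sum_congr rfl fun p _ => ?_
        rw [Pi.smul_apply, smul_eq_mul]
        ring
      show ∑ p, ((3 * (m : ℝ))⁻¹ • H) p * A p ≤ 1
      rw [h2]
      calc (3 * (m : ℝ))⁻¹ * ∑ p, H p * A p ≤ (3 * (m : ℝ))⁻¹ * (3 * m) :=
            mul_le_mul_of_nonneg_left h1 (by positivity)
        _ = 1 := inv_mul_cancel₀ (by positivity)
  have hvol : ENNReal.ofReal ((3 * (m : ℝ))⁻¹ ^ (n * m) *
      (1 / 2 * (2 * L / Real.sqrt n) ^ (n * m))) ≤ volume (LL n m r) := by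
    have h1 := hG n m L hn hm hL hLn hLm
    have h2 : volume ((3 * (m : ℝ))⁻¹ • Gd) =
        ENNReal.ofReal ((3 * (m : ℝ))⁻¹ ^ (n * m)) * volume Gd := by
      rw [Measure.addHaar_smul, Module.finrank_fintype_fun_eq_card, hcard,
        abs_of_nonneg (by positivity)]
    calc ENNReal.ofReal ((3 * (m : ℝ))⁻¹ ^ (n * m) *
          (1 / 2 * (2 * L / Real.sqrt n) ^ (n * m)))
        = ENNReal.ofReal ((3 * (m : ℝ))⁻¹ ^ (n * m)) *
          ENNReal.ofReal (1 / 2 * (2 * L / Real.sqrt n) ^ (n * m)) :=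
          ENNReal.ofReal_mul (by positivity)
      _ ≤ ENNReal.ofReal ((3 * (m : ℝ))⁻¹ ^ (n * m)) * volume Gd := mul_le_mul' le_rfl h1
      _ = volume ((3 * (m : ℝ))⁻¹ • Gd) := h2.symm
      _ ≤ volume (LL n m r) := measure_mono hsub
  set a : ℝ := (3 * (m : ℝ))⁻¹ ^ (n * m) * (1 / 2 * (2 * L / Real.sqrt n) ^ (n * m)) with ha
  have ha0 : 0 < a := by positivity
  have h3 : volume (KK n m) * ENNReal.ofReal a ≤
      ENNReal.ofReal ((2 * Real.pi * Real.exp 1 / ((n * m : ℕ) : ℝ)) ^ (n * m)) :=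
    (mul_le_mul' le_rfl hvol).trans hsan
  have h4 : volume (KK n m) ≤
      ENNReal.ofReal ((2 * Real.pi * Real.exp 1 / ((n * m : ℕ) : ℝ)) ^ (n * m)) /
        ENNReal.ofReal a := by
    rw [ENNReal.le_div_iff_mul_le (Or.inl (ENNReal.ofReal_pos.2 ha0).ne')
      (Or.inl ENNReal.ofReal_ne_top)]
    exact h3
  refine h4.trans (le_of_eq ?_)
  rw [← ENNReal.ofReal_div_of_pos ha0]
  congr 1
  have hsq : Real.sqrt n * Real.sqrt n = n := Real.mul_self_sqrt hn'.le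
  rw [div_eq_iff ha0.ne', ha]
  have h5 : 2 * Real.pi * Real.exp 1 / ((n * m : ℕ) : ℝ) =
      3 * Real.pi * Real.exp 1 / (L * Real.sqrt n) * ((3 * (m : ℝ))⁻¹ * (2 * L / Real.sqrt n)) := by
    push_cast
    obtain ⟨q, hq⟩ : ∃ q, q = Real.sqrt n := ⟨_, rfl⟩
    rw [← hq] at hs hsq ⊢
    rw [← hsq]
    field_simp
  rw [h5, mul_pow, mul_pow]
  ring

end Pool.Agent.W73.RA_VK
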